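import Mathlib
import Pool.Agent.H21.VolDef
import Pool.Agent.H21.VolC

set_option autoImplicit false
open MeasureTheory Set Filter Topology
open Pool.Agent.H21.Vol

namespace Pool.Agent.Results.MP_81f94f_an.NotRealised

noncomputable def th (n : ℕ) : ℝ := 1 / ((Nat.log 2 (Nat.log 2 n) : ℝ) + 1)

lemma th_pos (n : ℕ) : 0 < th n := by unfold th; positivity

lemma th_anti {m n : ℕ} (h : m ≤ n) : th n ≤ th m := by
  unfold th
  have : Nat.log 2 (Nat.log 2 m) ≤ Nat.log 2 (Nat.log 2 n) := Nat.log_mono_right (Nat.log_mono_right h)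
  gcongr

lemma th_block (k m : ℕ) (h1 : 2 ^ 2 ^ k ≤ m) (h2 : m < 2 ^ 2 ^ k * 2 ^ 2 ^ k) :
    th m = 1 / ((k : ℝ) + 1) := by
  have hm : m ≠ 0 := by have := Nat.two_pow_pos (2 ^ k); omega
  rw [← pow_add, ← two_mul, ← pow_succ'] at h2
  rw [th, Nat.log_eq_of_pow_le_of_lt_pow (Nat.le_log_of_pow_le (by norm_num) h1)
    (Nat.log_lt_of_lt_pow hm h2)]

lemma root (n : ℕ) (hn : 1 ≤ n) : (th n ^ n) ^ (1 / (n : ℝ)) = th n := by
  rw [one_div, Real.pow_rpow_inv_natCast (th_pos n).le (by omega)]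

lemma meas (μ : ComplexMeasure ℝ) (hμ : μ.variation (Ioo 0 1)ᶜ = 0)
    (h : ∀ n : ℕ, (mpow μ n).variation univ = ENNReal.ofReal (th (n + 1) ^ (n + 1))) : False := by
  have h0 : μ.variation univ = 1 := by simpa [th, mpow] using h 0
  have : IsFiniteMeasure μ.variation := ⟨by simp [h0]⟩
  have hz := obstruction μ hμ (by rw [h 1, h0]; simp [th]) fun j => by
    obtain ⟨n, hn⟩ : ∃ n, 2 ^ 2 ^ (j + 1) = n + 1 :=
      ⟨2 ^ 2 ^ (j + 1) - 1, by have := Nat.two_pow_pos (2 ^ (j + 1)); omega⟩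
    have hj : j + 1 ≤ n := by
      have a := Nat.lt_two_pow_self (n := j + 1)
      have b := Nat.lt_two_pow_self (n := 2 ^ (j + 1))
      omega
    have hb := th_block (j + 1)
    rw [hn] at hb
    refine ⟨n, fun e => ?_, ?_, ?_⟩
    · have := h n
      rw [e, VectorMeasure.variation_zero, Measure.coe_zero, Pi.zero_apply, eq_comm,
        ENNReal.ofReal_eq_zero] at this
      exact absurd this (not_le.2 (pow_pos (th_pos _) _))
    · rw [h, h, hb _ (by nlinarith) (by nlinarith), hb _ le_rfl (by nlinarith),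
        ← ENNReal.ofReal_pow (by positivity), ← pow_mul]
      congr 2; ring
    · rw [h, h, hb _ (by nlinarith) (by nlinarith), hb _ (by omega) (by nlinarith),
        ← ENNReal.ofReal_pow (by positivity), ← pow_mul]
      congr 2; ring
  simp [hz] at h0

/-- A sequence with (i)-(iv) that is not `(‖a^n‖)` for any `a` in `L¹[0,1]` or in `M(0,1)`. -/
theorem result :
    ∃ ω : ℕ → ℝ,
      (∀ n, 1 ≤ n → 0 < ω n) ∧
      (∀ m n, 1 ≤ m → 1 ≤ n → ω (m + n) ≤ ω m * ω n) ∧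
      Tendsto (fun n : ℕ => ω n ^ (1 / (n : ℝ))) atTop (𝓝 0) ∧
      (∀ m n : ℕ, 1 ≤ m → m ≤ n → ω n ^ (1 / (n : ℝ)) ≤ ω m ^ (1 / (m : ℝ))) ∧
      (¬ ∃ f : ℝ → ℂ, IntegrableOn f (Icc 0 1) ∧
        ∀ n : ℕ, ∫ t in (0 : ℝ)..1, ‖vpow f n t‖ = ω (n + 1)) ∧
      (¬ ∃ μ : ComplexMeasure ℝ, μ.variation (Ioo 0 1)ᶜ = 0 ∧
        ∀ n : ℕ, (mpow μ n).variation univ = ENNReal.ofReal (ω (n + 1))) := by
  refine ⟨fun n => th n ^ n, fun n _ => pow_pos (th_pos n) n, fun m n _ _ => ?_, ?_,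
    fun m n hm hmn => ?_, ?_, ?_⟩
  · simp only
    rw [pow_add]
    have := th_pos (m + n)
    have := th_pos m
    gcongr <;> exact th_anti (by omega)
  · have hl : Tendsto (Nat.log 2) atTop atTop :=
      tendsto_atTop_atTop.2 fun b => ⟨2 ^ b, fun a ha => Nat.le_log_of_pow_le (by norm_num) ha⟩
    refine (tendsto_one_div_add_atTop_nhds_zero_nat.comp (hl.comp hl)).congr' ?_
    filter_upwards [eventually_ge_atTop 1] with n hn
    rw [root n hn]; rfl
  · simp only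
    rw [root n (by omega), root m hm]; exact th_anti hmn
  · rintro ⟨f, hf, h⟩
    have hf' : IntegrableOn f (Ioo 0 1) := hf.mono_set Ioo_subset_Icc_self
    exact meas (emb f) (emb_good hf') fun n => by
      rw [(emb_vpow hf' n).2, emb_norm (emb_vpow hf' n).1, h]
  · rintro ⟨μ, hμ, h⟩
    exact meas μ hμ h

end Pool.Agent.Results.MP_81f94f_an.NotRealised
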